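import Pool.Agent.H58.PF.Targets

/-!
# FIN: the proper forcing axiom implies countable tightness, assembly
-/

set_option autoImplicit false

open Topology Cardinal

namespace Pool.Agent.H19.PF

open Pool.Agent.H20.SL Pool.Agent.H64.AK Pool.Agent.H64.AG Pool.Agent.H60.CP Pool.Agent.H58.PF

theorem fin (hUNI : T_UNI) (hZOR : T_ZOR) (hGEN : T_GEN) (hPER : T_PER) (hOMN : T_OMN)
    (hEMB : T_EMB) (hQUO : T_QUO) : T_FIN := by
  intro hPFA X _ _ hX
  have hT2 : T2Space X := by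
    obtain ⟨Y, _, _, e, he⟩ := hX
    exact he.t2Space
  by_contra hct
  obtain ⟨Z, tZ, g, hZc, hZ2, hZin, hgc, hgs, ι, B, hι, hB⟩ := hQUO X hX hct
  obtain ⟨r, hr, hrg⟩ := hPER Z g hgc hgs
  have hOm : Nonempty Om := by
    by_contra h
    rw [not_nonempty_iff] at h
    exact OmegaOne.unc (W := Om) (Set.to_countable _)
  obtain ⟨α⟩ := hOm
  obtain ⟨w₀, -⟩ := hr.unb α
  have hWne : Nonempty {z // g z ≠ OnePoint.infty} := ⟨w₀⟩
  obtain ⟨U, ⟨E⟩⟩ := hUNI {z // g z ≠ OnePoint.infty}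
  obtain ⟨𝓗, hH⟩ := hZOR _ r hr
  have hBase : Base (fun i => (Subtype.val ⁻¹' (B i) : Set {z // g z ≠ OnePoint.infty})) := by
    refine ⟨fun i => (hB.1 i).preimage continuous_subtype_val, fun x V hV hx => ?_⟩
    obtain ⟨V', hV', rfl⟩ := isOpen_induced_iff.1 hV
    obtain ⟨i, h1, h2⟩ := hB.2 x.1 V' hV' hx
    exact ⟨i, h1, Set.preimage_mono h2⟩
  obtain ⟨C, hC⟩ := hGEN _ U ι E r 𝓗 _ hr hH hPFA hι hBase
  obtain ⟨R, hR, e, hec, hei⟩ := hEMB Z g hgc r hrg C hC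
  refine hOMN R hR ?_
  obtain ⟨L, hL, hLc, hLs⟩ := exists_family hZin
  refine inCpLindelof_of (emb ((fun f : Z → ℝ => fun y : XT R => f (e y)) '' L) ?_ ?_ ?_)
  · exact hL.image (continuous_pi fun y => continuous_apply (e y))
  · rintro _ ⟨f, hf, rfl⟩
    exact (hLc f hf).comp hec
  · intro y y' hne
    obtain ⟨f, hf, hfne⟩ := hLs (e y) (e y') fun h => hne (hei h)
    exact ⟨_, ⟨f, hf, rfl⟩, hfne⟩

end Pool.Agent.H19.PF
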