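import Pool.Agent.H58.PF.Targets

/-!
# KNM: the sets of the model which contain the point above the model are large
-/

set_option autoImplicit false

open Topology Cardinal

namespace Pool.Agent.H19.PF

open Pool.Agent.H20.SL Pool.Agent.H64.AK Pool.Agent.H64.AG Pool.Agent.H60.CP Pool.Agent.H58.PF

theorem knm : T_KNM := by
  intro W U _ E r 𝓗 N x Φ hF hN hM hK hΦ hx
  by_contra hcon
  obtain ⟨H1, hH1, hc1, b, hb, hbd⟩ := hM.bd Φ hΦ hcon
  have hw : wcl H1 = H1 := Set.Subset.antisymm (hF.wc H1 hH1) (subset_wcl H1)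
  have h1 := hK.2 (sgl H1) hc1 (by
    rw [pts_sgl, hw]
    exact hH1)
  rw [pts_sgl] at h1
  have hcount : {v | v ∈ H1 ∧ E.cw v ∈ N}.Countable :=
    (hN.preimage (cw_inj E)).mono fun v hv => hv.2
  have hxH : x ∈ H1 := hF.wc H1 hH1 ⟨_, fun v hv => hv.1, hcount, h1⟩
  exact absurd (hbd x hxH (subset_wcl _ hx)) (not_le.2 (hK.1 b hb))

end Pool.Agent.H19.PF
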