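import Pool.Agent.H58.PF.Targets

/-!
# PRJ: properness can be tested with functions on a larger set
-/

set_option autoImplicit false

open Topology Cardinal

namespace Pool.Agent.H19.PF

open Pool.Agent.H20.SL Pool.Agent.H64.AK Pool.Agent.H64.AG Pool.Agent.H60.CP Pool.Agent.H58.PF

section
variable {X : Type}

/-- the closure of `S` under the functions -/
def cls (G : ℕ → List X → X) (S : Set X) : Set X := ⋂₀ {N | S ⊆ N ∧ ClosedUnder G N}

theorem subset_cls (G : ℕ → List X → X) (S : Set X) : S ⊆ cls G S :=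
  Set.subset_sInter fun _ hN => hN.1

theorem cls_closed (G : ℕ → List X → X) (S : Set X) : ClosedUnder G (cls G S) := by
  intro n l hl N hN
  exact hN.2 n l fun x hx => hl x hx N hN

theorem cls_mono (G : ℕ → List X → X) {S T : Set X} (h : S ⊆ T) : cls G S ⊆ cls G T := by
  intro x hx N hN
  exact hx N ⟨h.trans hN.1, hN.2⟩

theorem cls_countable (hCLO : T_CLO) (G : ℕ → List X → X) {S : Set X} (hS : S.Countable) :
    (cls G S).Countable := by
  obtain ⟨N, h1, h2, h3⟩ := hCLO X G S hS
  exact h2.mono fun x hx => hx N ⟨h1, h3⟩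

end

theorem prj (hCLO : T_CLO) : T_PRJ := by
  classical
  intro P X _ j hj G hG
  -- the closure generated by a list
  let C : List (P ⊕ Set P) → Set X := fun l => cls G {x | ∃ a ∈ l, x = j a}
  have hCc : ∀ l, (C l).Countable := by
    intro l
    refine cls_countable hCLO G ?_
    refine ((List.finite_toSet l).image j).countable.mono ?_
    rintro x ⟨a, ha, rfl⟩
    exact ⟨a, ha, rfl⟩
  have hne : Nonempty (P ⊕ Set P) := ⟨Sum.inr ∅⟩
  have hf : ∀ l, ∃ f : ℕ → P ⊕ Set P, j ⁻¹' (C l) ⊆ Set.range f := fun l =>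
    Set.countable_iff_exists_subset_range.1 ((hCc l).preimage hj)
  choose f hf using hf
  refine ⟨fun n l => f l n, fun M hM hMc p hp => ?_⟩
  have hMcount : Countable M := hM.to_subtype
  let v : List M → List (P ⊕ Set P) := fun l => l.map Subtype.val
  have hv : ∀ (l : List M), ∀ a ∈ v l, a ∈ M := by
    intro l a ha
    obtain ⟨b, -, rfl⟩ := List.mem_map.1 ha
    exact b.2
  let M' : Set X := ⋃ l : List M, C (v l)
  have hM'c : M'.Countable := Set.countable_iUnion fun l => hCc _
  have hfin : ∀ xs : List X, (∀ x ∈ xs, x ∈ M') → ∃ l : List M, ∀ x ∈ xs, x ∈ C (v l) := by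
    intro xs
    induction xs with
    | nil =>
      intro _
      exact ⟨[], by simp⟩
    | cons x xs ih =>
      intro h
      obtain ⟨l, hl⟩ := ih fun y hy => h y (List.mem_cons_of_mem _ hy)
      obtain ⟨l', hl'⟩ := Set.mem_iUnion.1 (h x List.mem_cons_self)
      refine ⟨l ++ l', fun y hy => ?_⟩
      have e : v (l ++ l') = v l ++ v l' := List.map_append ..
      rcases List.mem_cons.1 hy with rfl | hy
      · refine cls_mono G ?_ hl'
        rintro z ⟨a, ha, rfl⟩
        exact ⟨a, by
          rw [e]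
          exact List.mem_append_right _ ha, rfl⟩
      · refine cls_mono G ?_ (hl y hy)
        rintro z ⟨a, ha, rfl⟩
        exact ⟨a, by
          rw [e]
          exact List.mem_append_left _ ha, rfl⟩
  have hM'cl : ClosedUnder G M' := by
    intro n xs hxs
    obtain ⟨l, hl⟩ := hfin xs hxs
    exact Set.mem_iUnion.2 ⟨l, cls_closed G _ n xs hl⟩
  have hin : ∀ a ∈ M, j a ∈ M' := by
    intro a ha
    refine Set.mem_iUnion.2 ⟨[⟨a, ha⟩], subset_cls G _ ?_⟩
    exact ⟨a, List.mem_cons_self, rfl⟩
  have hpre : j ⁻¹' M' = M := by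
    ext a
    constructor
    · intro ha
      obtain ⟨l, hl⟩ := Set.mem_iUnion.1 (show j a ∈ M' from ha)
      obtain ⟨n, rfl⟩ := hf (v l) hl
      exact hMc n (v l) (hv l)
    · exact hin a
  obtain ⟨q, hq, hgen⟩ := hG M' hM'c hM'cl p (hin _ hp)
  rw [hpre] at hgen
  exact ⟨q, hq, hgen⟩

end Pool.Agent.H19.PF
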