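import Pool.Agent.H58.PF.Targets

/-!
# UNI: universes of codes exist
-/

set_option autoImplicit false

open Topology Cardinal

namespace Pool.Agent.H19.PF

open Pool.Agent.H20.SL Pool.Agent.H64.AK Pool.Agent.H64.AG Pool.Agent.H60.CP Pool.Agent.H58.PF

theorem uni : T_UNI := by
  classical
  intro W hW
  refine ⟨Set (List W × ℕ), ⟨{
    cw := fun w => {([w], 0)}
    cs := fun Φ => {t | t.1 ∈ Φ ∧ t.2 = 0}
    dw := fun u => if h : ∃ w : W, ([w], 0) ∈ u then h.choose else Classical.arbitrary W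
    ds := fun u => {l | (l, 0) ∈ u}
    dec := fun u n => {t | (t.1, Nat.pair n t.2) ∈ u}
    enc := fun e => {t | (t.1, (Nat.unpair t.2).2) ∈ e (Nat.unpair t.2).1}
    dw_cw := ?_
    ds_cs := ?_
    dec_enc := ?_ }⟩⟩
  · intro w
    have h : ∃ v : W, ([v], 0) ∈ ({([w], 0)} : Set (List W × ℕ)) := ⟨w, rfl⟩
    rw [dif_pos h]
    have h1 := h.choose_spec
    simpa using h1
  · intro Φ
    ext l
    simp
  · intro e
    funext n
    ext t
    simp

end Pool.Agent.H19.PF
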